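import Mathlib
import Pool.Agent.W912.ND.Defs

/-! The numerical statement S_NUMF1 of project ND (owner helper912). -/

set_option autoImplicit false

namespace Pool.Agent.W378.ND

open Filter

theorem numf1 : Pool.Agent.W912.ND.S_NUMF1 := by
  intro f hf B n₁
  obtain ⟨C, hC⟩ : ∃ C : ℕ, C = B + 1 := ⟨_, rfl⟩
  have hC1 : 1 ≤ C := by omega
  have hCR : (0 : ℝ) < ((2 * C : ℕ) : ℝ) := by
    have : 0 < 2 * C := by omega
    exact_mod_cast this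
  obtain ⟨n₂, hn₂⟩ : ∃ n₂ : ℕ, n₂ = max n₁ 6 := ⟨_, rfl⟩
  obtain ⟨N, hfN, hN⟩ := ((hf (((2 * C : ℕ) : ℝ)⁻¹) (inv_pos.2 hCR)).and_eventually
    (eventually_ge_atTop (2 ^ (n₂ ^ C + 1)))).exists
  have hex : ∃ n : ℕ, N < 2 ^ ((n + 1) ^ C + 1) := by
    refine ⟨N, ?_⟩
    calc N < 2 ^ N := Nat.lt_two_pow_self
      _ ≤ 2 ^ ((N + 1) ^ C + 1) := by
        apply Nat.pow_le_pow_right (by norm_num)
        have h1 : N + 1 ≤ (N + 1) ^ C := Nat.le_self_pow (by omega) (N + 1)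
        omega
  classical
  obtain ⟨n, hn, hmin⟩ : ∃ n : ℕ, N < 2 ^ ((n + 1) ^ C + 1) ∧
      ∀ m < n, ¬ N < 2 ^ ((m + 1) ^ C + 1) :=
    ⟨Nat.find hex, Nat.find_spec hex, fun m hm => Nat.find_min hex hm⟩
  have hn2n : n₂ ≤ n := by
    by_contra hlt
    have h3 : n + 1 ≤ n₂ := by omega
    have h4 : 2 ^ ((n + 1) ^ C + 1) ≤ 2 ^ (n₂ ^ C + 1) := by
      apply Nat.pow_le_pow_right (by norm_num)
      have h5 : (n + 1) ^ C ≤ n₂ ^ C := Nat.pow_le_pow_left h3 C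
      omega
    omega
  have hn0 : 0 < n := by omega
  have hlow : 2 ^ (n ^ C + 1) ≤ N := by
    have h6 := hmin (n - 1) (by omega)
    have h7 : n - 1 + 1 = n := by omega
    rw [h7] at h6
    omega
  refine ⟨n, by omega, N, ?_, ?_⟩
  · refine le_trans ?_ hlow
    apply Nat.pow_le_pow_right (by norm_num)
    have h8 : n ^ B ≤ n ^ C := Nat.pow_le_pow_right hn0 (by omega)
    omega
  · refine le_trans hfN ?_
    have hNpos : 0 < N := lt_of_lt_of_le (by positivity) hlow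
    have hNR : (0 : ℝ) < (N : ℝ) := by exact_mod_cast hNpos
    have hN1 : (1 : ℝ) ≤ (N : ℝ) := by exact_mod_cast hNpos
    -- the logarithm
    have hlog0 : 0 ≤ Real.logb 2 (N : ℝ) := Real.logb_nonneg (by norm_num) hN1
    have hq : (n + 1) ^ C + 1 ≤ (n / 2) ^ (2 * C) := by
      obtain ⟨q, hq⟩ : ∃ q : ℕ, q = n / 2 := ⟨_, rfl⟩
      rw [← hq]
      have hq3 : 3 ≤ q := by omega
      have hnq : n ≤ 2 * q + 1 := by omega
      have h9 : n + 2 ≤ q ^ 2 := by nlinarith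
      have h10 : (n + 1) ^ C < (n + 2) ^ C := Nat.pow_lt_pow_left (by omega) (by omega)
      calc (n + 1) ^ C + 1 ≤ (n + 2) ^ C := h10
        _ ≤ (q ^ 2) ^ C := Nat.pow_le_pow_left h9 C
        _ = q ^ (2 * C) := (pow_mul q 2 C).symm
    have hlog : Real.logb 2 (N : ℝ) ≤ (((n / 2 : ℕ)) : ℝ) ^ (2 * C) := by
      have h9 : (N : ℝ) ≤ (2 : ℝ) ^ ((((n + 1) ^ C + 1 : ℕ)) : ℝ) := by
        rw [Real.rpow_natCast]
        exact_mod_cast hn.le
      have h10 : Real.logb 2 (N : ℝ) ≤ (((n + 1) ^ C + 1 : ℕ) : ℝ) := by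
        rw [Real.logb_le_iff_le_rpow (by norm_num) hNR]
        exact h9
      refine le_trans h10 ?_
      exact_mod_cast hq
    have hfin : (Real.logb 2 (N : ℝ)) ^ (((2 * C : ℕ) : ℝ)⁻¹) ≤ ((n / 2 : ℕ) : ℝ) := by
      calc (Real.logb 2 (N : ℝ)) ^ (((2 * C : ℕ) : ℝ)⁻¹)
          ≤ ((((n / 2 : ℕ)) : ℝ) ^ (2 * C)) ^ (((2 * C : ℕ) : ℝ)⁻¹) :=
            Real.rpow_le_rpow hlog0 hlog (inv_nonneg.2 hCR.le)
        _ = ((n / 2 : ℕ) : ℝ) := Real.pow_rpow_inv_natCast (Nat.cast_nonneg _) (by omega)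
    rw [← Real.rpow_natCast]
    exact Real.rpow_le_rpow_of_exponent_le (by norm_num) hfin

end Pool.Agent.W378.ND
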